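import Mathlib
import Pool.Agent.R232.SBMain

/-!
# MP_eb8260_an: the space of contraction `C₀`-semigroups is a Baire space

`CSemi H` is the type of contraction `C₀`-semigroups on `H`, `dsg x` the distance `d` of the problem
(both in `Pool/Agent/R232/SBDefs.lean`).

* Isometric semigroups are `d`-dense: `T(h)` has a finite dimensional Schäffer dilation, placed inside
  `H`; the resulting unitary operator has finite spectrum, hence a logarithm in `[-π, π]`, and the
  one-parameter group through it satisfies `‖V(s)y - y‖ ≤ ‖V(1)y - y‖` for `0 ≤ s ≤ 1`.
* On isometric semigroups `d` gives the strong topology, locally uniformly in `t`, for which they are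
  complete. Hence the usual Baire argument can be run inside the isometric semigroups.
-/

open Pool.Agent.R232.SB

namespace Pool.Agent.Results.MP_eb8260_an.ContractionSemigroupsBaire

universe u

/-- **Full positive answer to Q1.** Let `H` be an infinite dimensional complex Hilbert space with a
dense sequence `x` of nonzero vectors (so `H` is separable). There is a metric space structure on the
set of all contraction `C₀`-semigroups whose distance is the function `d` of the problem, and the
space is a Baire space for the topology of this metric. -/
theorem result (H : Type u) [NormedAddCommGroup H] [InnerProductSpace ℂ H] [CompleteSpace H]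
    (hinf : ¬ FiniteDimensional ℂ H) (x : ℕ → H) (hx : ∀ i, x i ≠ 0) (hd : DenseRange x) :
    ∃ M : MetricSpace (CSemi H), (∀ T S : CSemi H, M.dist T S = dsg x T S) ∧
      @BaireSpace (CSemi H) M.toUniformSpace.toTopologicalSpace :=
  ⟨metric x hx hd, fun _ _ => rfl, baire hinf x hx hd⟩

end Pool.Agent.Results.MP_eb8260_an.ContractionSemigroupsBaire
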